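import Pool.Agent.Lib.MP_d7aa4b_an.Main

/-!
# Problem MP_d7aa4b_an

Every basis of a Banach space (real or complex) that is Cesaro quasi-greedy (CQG) or
de la Vallee-Poussin quasi-greedy (VPQG) is quasi-greedy.
-/

namespace Pool.Agent.Results.MP_d7aa4b_an.CesaroVPGreedy

open Filter Topology Pool.Agent.Lib.MP_d7aa4b_an

theorem result {𝕜 : Type*} [RCLike 𝕜] {X : Type*} [NormedAddCommGroup X] [NormedSpace 𝕜 X]
    [CompleteSpace X] (e : ℕ → X) (f : ℕ → X →L[𝕜] 𝕜) (hbasis : IsBasis e f)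
    (h : IsCesaroQuasiGreedy e f ∨ IsVPQuasiGreedy e f) : IsQuasiGreedy e f := by
  have hVP : IsVPQuasiGreedy e f := by
    rcases h with h | h
    · intro x k hk
      have h1 := h x k hk
      have h2 : Tendsto (fun m : ℕ => 2 * m) atTop atTop :=
        tendsto_atTop_mono (fun m => (by omega : m ≤ 2 * m)) tendsto_id
      have h3 := (h1.comp h2).const_smul (2 : 𝕜)
      have h4 := h3.sub h1
      have h5 : (2 : 𝕜) • x - x = x := by
        rw [two_smul]; abel
      rw [h5] at h4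
      exact h4
    · exact h
  obtain ⟨C1, hC1⟩ := hbasis.bounded_vectors
  obtain ⟨C2, hC2⟩ := hbasis.bounded_functionals
  set c : ℝ := max (max C1 C2) 1 with hc
  have hc1 : 1 ≤ c := le_max_right _ _
  have he : ∀ n, ‖e n‖ ≤ c := fun n =>
    (hC1 n).trans ((le_max_left _ _).trans (le_max_left _ _))
  have hf : ∀ n, ‖f n‖ ≤ c := fun n =>
    (hC2 n).trans ((le_max_right _ _).trans (le_max_left _ _))
  obtain ⟨KV, hKV⟩ := uv_of_vpqg hbasis.biorthogonal he hf hc1 hVP
  exact qg_of_uv hbasis.biorthogonal hbasis.dense_span he hf hc1 hKV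

end Pool.Agent.Results.MP_d7aa4b_an.CesaroVPGreedy
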